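import Mathlib
import Pool.Agent.H45.Lib.S8.H307R2.LUB
import Pool.Agent.H45.Lib.S8.H307R2.Sg5
import Pool.Agent.H45.Lib.S8.H410R2.Iface

/-! Siegel's theorem, part 6: conclusion. -/

open Filter Topology Set
open scoped ComplexOrder

namespace Pool.Agent.H307R2

noncomputable section

lemma zeta_neg {x : ℝ} (h0 : 0 < x) (h1 : x < 1) :
    (riemannZeta (x : ℂ)).re < 0 ∧ (riemannZeta (x : ℂ)).im = 0 := by
  have hne : (x : ℂ) ≠ 1 := by
    intro h
    have : x = 1 := by exact_mod_cast h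
    linarith
  have e0 := zeta_eq (N := 1) le_rfl (s := (x : ℂ)) (by simpa using h0) hne
  have e1 : TM 1 Ez (x : ℂ) =
      ((∫ t in Ioi ((1 : ℕ) : ℝ), (-(Int.fract t)) * t ^ (-(x + 1)) : ℝ) : ℂ) := by
    unfold TM
    rw [← integral_complex_ofReal]
    refine MeasureTheory.setIntegral_congr_fun measurableSet_Ioi fun t ht => ?_
    have ht' : (1 : ℝ) < t := by simpa using ht
    have ht0 : 0 ≤ t := by linarith
    simp only [Ez]
    rw [Complex.ofReal_mul, Complex.ofReal_cpow ht0]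
    push_cast
    rfl
  have e2 : (∫ t in Ioi ((1 : ℕ) : ℝ), (-(Int.fract t)) * t ^ (-(x + 1)) : ℝ) ≤ 0 := by
    apply MeasureTheory.setIntegral_nonpos measurableSet_Ioi
    intro t ht
    have ht' : (1 : ℝ) < t := by simpa using ht
    have : 0 ≤ Int.fract t * t ^ (-(x + 1)) :=
      mul_nonneg (Int.fract_nonneg t) (Real.rpow_nonneg (by linarith) _)
    linarith
  rw [e1] at e0
  set I := (∫ t in Ioi ((1 : ℕ) : ℝ), (-(Int.fract t)) * t ^ (-(x + 1)) : ℝ) with hI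
  have e3 : riemannZeta (x : ℂ) = ((1 + 1 / (x - 1) + x * I : ℝ) : ℂ) := by
    rw [e0]
    push_cast
    simp
  rw [e3]
  constructor
  · rw [Complex.ofReal_re]
    have h3 : 1 + 1 / (x - 1) = -(x / (1 - x)) := by
      have : x - 1 ≠ 0 := by linarith
      have : 1 - x ≠ 0 := by linarith
      field_simp
      ring
    have h4 : 0 < x / (1 - x) := div_pos h0 (by linarith)
    have h5 : x * I ≤ 0 := mul_nonpos_of_nonneg_of_nonpos h0.le e2
    linarith
  · exact Complex.ofReal_im _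

lemma L_pos {q : ℕ} [NeZero q] {χ : DirichletCharacter ℂ q} (h : χ ^ 2 = 1) (hχ : χ ≠ 1)
    {β : ℝ} (hβ0 : 0 < β) (hβ1 : β < 1)
    (hnz : ∀ y : ℝ, β ≤ y → y < 1 → χ.LFunction (y : ℂ) ≠ 0) :
    0 < (χ.LFunction (β : ℂ)).re := by
  by_contra hneg
  push Not at hneg
  have hc : ContinuousOn (fun y : ℝ => (χ.LFunction (y : ℂ)).re) (Icc β 2) := by
    apply Continuous.continuousOn
    exact Complex.continuous_re.comp
      ((DirichletCharacter.differentiable_LFunction hχ).continuous.comp Complex.continuous_ofReal)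
  have h2 : (0 : ℝ) ≤ (χ.LFunction ((2 : ℝ) : ℂ)).re := by
    have := LFunction_two_re (χ := χ)
    have e : ((2 : ℝ) : ℂ) = 2 := by norm_num
    rw [e]
    linarith
  have := intermediate_value_Icc (by linarith : β ≤ 2) hc ⟨hneg, h2⟩
  obtain ⟨y, ⟨hy1, hy2⟩, hy3⟩ := this
  have hy0 : χ.LFunction (y : ℂ) = 0 := by
    apply Complex.ext
    · simpa using hy3
    · simpa using LFunction_im h hχ (x := y) (by linarith)
  rcases lt_or_ge y 1 with h3 | h3
  · exact hnz y hy1 h3 hy0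
  · exact DirichletCharacter.LFunction_ne_zero_of_one_le_re χ (Or.inl hχ) (by simpa using h3) hy0

lemma base {η : ℝ} (hη : 0 < η) (hη' : η < 1) :
    (∀ (q : ℕ) [NeZero q] (χ : DirichletCharacter ℂ q), χ ^ 2 = 1 → χ = 1) ∨
    ∃ (q1 : ℕ) (_ : NeZero q1) (χ1 : DirichletCharacter ℂ q1) (β : ℝ), χ1 ^ 2 = 1 ∧ χ1 ≠ 1 ∧
      1 - η ≤ β ∧ β < 1 ∧ ∀ (q2 : ℕ) [NeZero q2] (χ2 : DirichletCharacter ℂ q2), χ2 ^ 2 = 1 →
        χ2 ≠ 1 → psi χ1 χ2 ≠ 1 → (FF χ1 χ2 (β : ℂ)).re ≤ 0 := by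
  by_cases hz : ∃ (q1 : ℕ) (_ : NeZero q1) (χ1 : DirichletCharacter ℂ q1) (β : ℝ),
      χ1 ^ 2 = 1 ∧ χ1 ≠ 1 ∧ 1 - η ≤ β ∧ β < 1 ∧ χ1.LFunction (β : ℂ) = 0
  · right
    obtain ⟨q1, i1, χ1, β, a1, a2, a3, a4, a5⟩ := hz
    refine ⟨q1, i1, χ1, β, a1, a2, a3, a4, ?_⟩
    intro q2 _ χ2 _ _ _
    unfold FF HH
    rw [a5]
    simp
  · push Not at hz
    by_cases he : ∃ (q1 : ℕ) (_ : NeZero q1) (χ1 : DirichletCharacter ℂ q1),
      χ1 ^ 2 = 1 ∧ χ1 ≠ 1
    · right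
      obtain ⟨q1, i1, χ1, a1, a2⟩ := he
      refine ⟨q1, i1, χ1, 1 - η, a1, a2, le_rfl, by linarith, ?_⟩
      intro q2 i2 χ2 b1 b2 b3
      have hβ0 : 0 < 1 - η := by linarith
      have hβ1 : 1 - η < 1 := by linarith
      have p1 := L_pos a1 a2 hβ0 hβ1 (fun y hy1 hy2 => hz q1 i1 χ1 y a1 a2 hy1 hy2)
      have p2 := L_pos b1 b2 hβ0 hβ1 (fun y hy1 hy2 => hz q2 i2 χ2 y b1 b2 hy1 hy2)
      have p3 := L_pos (psi_sq a1 b1) b3 hβ0 hβ1
        (fun y hy1 hy2 => hz (q1 * q2) inferInstance (psi χ1 χ2) y (psi_sq a1 b1) b3 hy1 hy2)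
      have r1 := LFunction_im a1 a2 hβ0
      have r2 := LFunction_im b1 b2 hβ0
      have r3 := LFunction_im (psi_sq a1 b1) b3 hβ0
      obtain ⟨z1, z2⟩ := zeta_neg hβ0 hβ1
      unfold FF HH
      rw [Complex.mul_re, z2, zero_mul, sub_zero, Complex.mul_re, r3, mul_zero, sub_zero,
        Complex.mul_re, r1, zero_mul, sub_zero]
      exact (mul_neg_of_neg_of_pos z1 (mul_pos (mul_pos p1 p2) p3)).le
    · left
      push Not at he
      intro q i χ hχ
      exact he q i χ hχ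

lemma fin_min (Q0 : ℕ) : ∃ c : ℝ, 0 < c ∧ ∀ (q : ℕ) [NeZero q] (χ : DirichletCharacter ℂ q),
    q ≤ Q0 → χ ≠ 1 → c ≤ ‖χ.LFunction 1‖ := by
  induction Q0 with
  | zero =>
    refine ⟨1, one_pos, ?_⟩
    intro q _ χ hq
    exact absurd (Nat.le_zero.1 hq) (NeZero.ne q)
  | succ Q ih =>
    obtain ⟨c, hc, ih⟩ := ih
    classical
    haveI : NeZero (Q + 1) := ⟨by omega⟩
    let f : DirichletCharacter ℂ (Q + 1) → ℝ := fun χ => if χ = 1 then 1 else ‖χ.LFunction 1‖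
    haveI : Finite (DirichletCharacter ℂ (Q + 1)) := inferInstance
    obtain ⟨χ0, h0⟩ := Finite.exists_min f
    have hf0 : 0 < f χ0 := by
      simp only [f]
      split_ifs with h
      · exact one_pos
      · exact norm_pos_iff.2 (DirichletCharacter.LFunction_apply_one_ne_zero h)
    refine ⟨min c (f χ0), lt_min hc hf0, ?_⟩
    intro q _ χ hq hχ
    rcases Nat.lt_or_ge Q q with h | h
    · have hq' : q = Q + 1 := by omega
      subst hq'
      refine (min_le_right _ _).trans ((h0 χ).trans ?_)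
      simp only [f, if_neg hχ]
      rfl
    · exact (min_le_left _ _).trans (ih q χ h hχ)

/-- **Siegel's theorem** -/
theorem siegel : Pool.Agent.H410R2.Siegel := by
  intro ε hε
  set η : ℝ := min ε 1 / 16 with hη
  have hη0 : 0 < η := by
    have : 0 < min ε 1 := lt_min hε one_pos
    positivity
  have hη1 : η ≤ 1 / 16 := by
    have : min ε 1 ≤ 1 := min_le_right _ _
    linarith
  have hη2 : 9 * η ≤ ε := by
    have : min ε 1 ≤ ε := min_le_left _ _
    linarith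
  rcases base hη0 (by linarith) with hb | ⟨q1, i1, χ1, β, a1, a2, a3, a4, a5⟩
  · refine ⟨1, one_pos, ?_⟩
    intro q _ χ _ h1 h2
    exact absurd (hb q χ h1) h2
  · obtain ⟨C, hC, hU⟩ := lUpper η hη0 (by linarith)
    obtain ⟨c0, hc0, hmin⟩ := fin_min q1
    have hq1 : (1 : ℝ) ≤ q1 := by exact_mod_cast Nat.one_le_iff_ne_zero.2 (NeZero.ne q1)
    have hq1' : (0 : ℝ) < q1 := by linarith
    -- upper bound at `1`
    have hU1 : ∀ (q : ℕ) [NeZero q] (χ : DirichletCharacter ℂ q), χ ≠ 1 →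
        ‖χ.LFunction 1‖ ≤ C * ((q : ℝ) * 2) ^ η := by
      intro q _ χ hχ
      have := hU q χ hχ 1 (by simp; linarith) (by simp)
      simpa using this
    set K : ℝ := C * ((q1 : ℝ) * 2) ^ η with hK
    have hK0 : 0 < K := by positivity
    set c1 : ℝ := 1 / 80000 * (1 - β) * (q1 : ℝ) ^ (-(8 * η)) / (K * K) with hc1
    have hc1' : 0 < c1 := by
      have : 0 < 1 - β := by linarith
      positivity
    refine ⟨min c0 c1, lt_min hc0 hc1', ?_⟩
    intro q2 _ χ2 hprim h2 n2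
    have hq2 : (1 : ℝ) ≤ q2 := by exact_mod_cast Nat.one_le_iff_ne_zero.2 (NeZero.ne q2)
    have hq2' : (0 : ℝ) < q2 := by linarith
    have hle1 : (q2 : ℝ) ^ (-ε) ≤ 1 := Real.rpow_le_one_of_one_le_of_nonpos hq2 (by linarith)
    have hpos1 : 0 < (q2 : ℝ) ^ (-ε) := Real.rpow_pos_of_pos hq2' _
    by_cases hpsi : psi χ1 χ2 = 1
    · have hle := le_of_psi_eq_one h2 hprim hpsi
      calc min c0 c1 * (q2 : ℝ) ^ (-ε) ≤ c0 * 1 :=
            mul_le_mul (min_le_left _ _) hle1 hpos1.le hc0.le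
        _ = c0 := mul_one _
        _ ≤ _ := hmin q2 χ2 hle n2
    · have hk := key a1 h2 a2 n2 hpsi (β := β) (by linarith) a4 (a5 q2 χ2 h2 n2 hpsi)
      have hk2 : (HH χ1 χ2 1).re ≤ ‖χ2.LFunction 1‖ * (K * (K * (q2 : ℝ) ^ η)) := by
        refine (Complex.re_le_norm _).trans ?_
        unfold HH
        rw [norm_mul, norm_mul]
        have u1 := hU1 q1 χ1 a2
        have u3 := hU1 (q1 * q2) (psi χ1 χ2) hpsi
        have u3' : ‖(psi χ1 χ2).LFunction 1‖ ≤ K * (q2 : ℝ) ^ η := by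
          refine u3.trans (le_of_eq ?_)
          rw [hK]
          push_cast
          have : (q1 : ℝ) * q2 * 2 = (q1 * 2) * q2 := by ring
          rw [this, Real.mul_rpow (by positivity) (by positivity)]
          ring
        calc ‖χ1.LFunction 1‖ * ‖χ2.LFunction 1‖ * ‖(psi χ1 χ2).LFunction 1‖
            = ‖χ2.LFunction 1‖ * (‖χ1.LFunction 1‖ * ‖(psi χ1 χ2).LFunction 1‖) := by ring
          _ ≤ _ := by
            apply mul_le_mul_of_nonneg_left _ (norm_nonneg _)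
            exact mul_le_mul u1 u3' (norm_nonneg _) hK0.le
      have hD : (1 : ℝ) ≤ (q1 : ℝ) * q2 := by nlinarith
      have hk3 : ((q1 : ℝ) * q2) ^ (-(8 * η)) ≤ ((q1 : ℝ) * q2) ^ (-(8 * (1 - β))) :=
        Real.rpow_le_rpow_of_exponent_le hD (by linarith)
      have h1β : 0 < 1 - β := by linarith
      have hk4 : 1 / 80000 * (1 - β) * ((q1 : ℝ) ^ (-(8 * η)) * (q2 : ℝ) ^ (-(8 * η))) ≤
          ‖χ2.LFunction 1‖ * (K * (K * (q2 : ℝ) ^ η)) := by
        rw [← Real.mul_rpow hq1'.le hq2'.le]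
        refine le_trans ?_ (hk.trans hk2)
        exact mul_le_mul_of_nonneg_left hk3 (by positivity)
      have hq2η : 0 < (q2 : ℝ) ^ η := Real.rpow_pos_of_pos hq2' _
      have hk5 : c1 * (q2 : ℝ) ^ (-(9 * η)) ≤ ‖χ2.LFunction 1‖ := by
        have e1 : (q2 : ℝ) ^ (-(9 * η)) = (q2 : ℝ) ^ (-(8 * η)) / (q2 : ℝ) ^ η := by
          rw [← Real.rpow_sub hq2']
          congr 1
          ring
        rw [e1, hc1]
        rw [div_mul_div_comm, div_le_iff₀ (by positivity)]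
        calc _ = 1 / 80000 * (1 - β) * ((q1 : ℝ) ^ (-(8 * η)) * (q2 : ℝ) ^ (-(8 * η))) := by ring
          _ ≤ _ := hk4
          _ = _ := by ring
      calc min c0 c1 * (q2 : ℝ) ^ (-ε) ≤ c1 * (q2 : ℝ) ^ (-(9 * η)) :=
            mul_le_mul (min_le_right _ _)
              (Real.rpow_le_rpow_of_exponent_le hq2 (by linarith)) hpos1.le hc1'.le
        _ ≤ _ := hk5

end

end Pool.Agent.H307R2
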